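import Pool.Agent.N557.BP.Stm2

set_option autoImplicit false

/-!
# BP/R1: limits of the slices at a vertex for the directions which enter or leave the wedge
-/

namespace Pool.Agent.N700.BP

open Complex Set MeasureTheory Filter Topology Pool.Agent.W780.PG Pool.Agent.W780.BB
  Pool.Agent.TH103.BL Pool.Agent.N557.BP

open scoped Real ComplexConjugate

/-- a point of the line through the vertex inside the polygon -/
theorem inner {n : ℕ} {p : Fin (n + 3) → ℂ} (hp : IsConvexPolygon p) (i : Fin (n + 3)) {θ σ : ℝ}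
    (h1 : 0 < σ * sl p i θ) (h2 : 0 < σ * sl p (i - 1) θ) :
    ∃ s : ℝ, p i + s • dir θ ∈ reg p := by
  have h3 : ∀ j, ∀ᶠ s : ℝ in 𝓝[>] 0, 0 < sf p j (p i + (s * σ) • dir θ) := by
    intro j
    by_cases hji : j = i
    · subst hji
      filter_upwards [self_mem_nhdsWithin] with s hs
      rw [sf_ray, Pool.Agent.W82.BB.sf_vertex_left, zero_add, mul_assoc]
      exact mul_pos hs h1
    · by_cases hji' : j = i - 1
      · subst hji'
        filter_upwards [self_mem_nhdsWithin] with s hs
        rw [sf_ray, Pool.Agent.W82.BB.sf_vertex_right, zero_add, mul_assoc]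
        exact mul_pos hs h2
      · have h4 : 0 < sf p j (p i) := by
          refine hp.pos j i (fun h => hji h.symm) fun h => hji' ?_
          rw [h, add_sub_cancel_right]
        have h5 : Continuous fun s : ℝ => sf p j (p i + (s * σ) • dir θ) :=
          (sf_cont p j).comp (by fun_prop)
        have h6 : Tendsto (fun s : ℝ => sf p j (p i + (s * σ) • dir θ)) (𝓝[>] 0)
            (𝓝 (sf p j (p i))) := by
          have h7 := (h5.tendsto 0).mono_left (nhdsWithin_le_nhds (s := Ioi (0 : ℝ)))
          simpa using h7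
        exact h6.eventually (lt_mem_nhds h4)
  obtain ⟨s, hs⟩ := (eventually_all.2 h3).exists
  exact ⟨s * σ, hs⟩

theorem t_r1 : S_R1 := by
  intro n p hp f hf hI hO i
  have hrg : region p = reg p := (hH n p hp).2
  filter_upwards [hO] with θ hθ hpos
  obtain ⟨G, hG, hGe⟩ := hθ
  obtain ⟨s, hs⟩ : ∃ s : ℝ, p i + s • dir θ ∈ reg p := by
    rcases lt_trichotomy (sl p i θ) 0 with h | h | h
    · have h' : sl p (i - 1) θ < 0 := by
        by_contra hc
        rw [not_lt] at hc
        exact absurd hpos (not_lt.2 (mul_nonpos_of_nonpos_of_nonneg h.le hc))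
      exact inner hp i (σ := -1) (by linarith) (by linarith)
    · rw [h, zero_mul] at hpos
      exact absurd hpos (lt_irrefl _)
    · have h' : 0 < sl p (i - 1) θ := (mul_pos_iff_of_pos_left h).1 hpos
      exact inner hp i (σ := 1) (by linarith) (by linarith)
  rw [← hrg] at hs
  have hopen : IsOpen (region p) := isOpen_interior
  have hc : ContinuousAt G (p i + s • dir θ) := hG.continuousAt (hopen.mem_nhds hs)
  refine ⟨G (p i + s • dir θ), fun η hη => ?_⟩
  obtain ⟨r1, hr1, h1⟩ := Metric.continuousAt_iff.1 hc η hη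
  obtain ⟨r2, hr2, h2⟩ := Metric.isOpen_iff.1 hopen _ hs
  refine ⟨min r1 r2, lt_min hr1 hr2, ?_⟩
  have hae : ∀ᵐ z : ℂ, z + s • dir θ ∈ region p → f (z + s • dir θ, θ) = G (z + s • dir θ) :=
    (measurePreserving_add_right (volume : Measure ℂ) (s • dir θ)).quasiMeasurePreserving.ae hGe
  filter_upwards [hae] with z hz hzr hzn
  have hd : dist (z + s • dir θ) (p i + s • dir θ) = ‖z - p i‖ := by
    rw [dist_add_right, dist_eq_norm]
  have hw : z + s • dir θ ∈ region p := by
    refine h2 ?_
    rw [Metric.mem_ball, hd]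
    exact hzn.trans_le (min_le_right _ _)
  rw [hI.free z θ s hzr hw, hz hw]
  have := h1 (x := z + s • dir θ) (by rw [hd]; exact hzn.trans_le (min_le_left _ _))
  rw [Real.dist_eq] at this
  exact this.le

end Pool.Agent.N700.BP
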